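import Pool.Agent.Q81.DBal

open Finset

namespace Pool.Agent.Results.MP_fab4c6_an.DetRatio

/-- For `n ≥ 3` and every symmetric real `n × n` matrix `J` with positive entries and
`J i i = ∑_{j ≠ i} J i j` one has `det J / ∏ J_ii ≤ det S / (n-1)^n = 2 (1 - 1/(n-1))^(n-1)`,
where `S = (n-2) I + 1 1^T`. -/
theorem result : ∀ n : ℕ, 3 ≤ n → ∀ J : Matrix (Fin n) (Fin n) ℝ,
    J.IsSymm → (∀ i j, 0 < J i j) → (∀ i, J i i = ∑ j ∈ univ.erase i, J i j) →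
    J.det / ∏ i, J i i ≤
        (((n : ℝ) - 2) • (1 : Matrix (Fin n) (Fin n) ℝ) + Matrix.of fun _ _ => 1).det /
          ((n : ℝ) - 1) ^ n ∧
      (((n : ℝ) - 2) • (1 : Matrix (Fin n) (Fin n) ℝ) + Matrix.of fun _ _ => 1).det /
          ((n : ℝ) - 1) ^ n = 2 * (1 - 1 / ((n : ℝ) - 1)) ^ (n - 1) := by
  intro n hn J h1 h2 h3
  refine ⟨?_, Pool.Agent.Q81.DBal.detS hn⟩
  rw [Pool.Agent.Q81.DBal.detS hn]
  exact Pool.Agent.Q81.DBal.main hn ⟨h1, h2, h3⟩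

end Pool.Agent.Results.MP_fab4c6_an.DetRatio
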